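import Mathlib
import Pool.Agent.H292R3.FS.Loop

set_option autoImplicit false

/-!
# One colour change between a vertex and its image: automorphisms moving a vertex by at most 3
-/

namespace Pool.Agent.Results.MP_a0ec0b_co.DistanceThree

open Pool.Agent.H292R3.FS Pool.Agent.H292R3.FS.Loop

variable {n : ℕ}

lemma mono_le (c : Sym2 (Fin n → Bool) → Bool) (b : Bool) : mono c b ≤ cube n :=
  fun _ _ h => h.1

lemma edges_col {c : Sym2 (Fin n → Bool) → Bool} {b : Bool} {u v : Fin n → Bool}
    (p : (mono c b).Walk u v) : ∀ e ∈ p.edges, c e = b := by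
  intro e he
  have h := p.edges_subset_edgeSet he
  revert h
  refine Sym2.ind (fun x y => ?_) e
  intro h
  exact h.2

lemma mono_walk_path {c : Sym2 (Fin n → Bool) → Bool} {b b' : Bool} {u w v : Fin n → Bool}
    (h1 : (mono c b).Reachable u w) (h2 : (mono c b').Reachable w v) :
    ∃ p : (cube n).Walk u v, p.IsPath ∧ ∃ e₁ e₂ : List (Sym2 (Fin n → Bool)),
      p.edges = e₁ ++ e₂ ∧ (∀ e ∈ e₁, ∀ e' ∈ e₁, c e = c e') ∧
      (∀ e ∈ e₂, ∀ e' ∈ e₂, c e = c e') := by
  classical
  have hex : ∃ k : ℕ, ∃ w, ∃ p : (mono c b).Walk u w, p.length = k ∧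
      (mono c b').Reachable w v := by
    obtain ⟨p⟩ := h1
    exact ⟨p.length, w, p, rfl, h2⟩
  obtain ⟨w, p, hpk, hwv⟩ := Nat.find_spec hex
  have hmin := fun m (hm : m < Nat.find hex) => Nat.find_min hex hm
  have hfirst : ∀ x ∈ p.bypass.support, (mono c b').Reachable x v → x = w := by
    intro x hx hxv
    by_contra hne
    have h3 : (p.bypass.takeUntil x hx).length < p.bypass.length :=
      SimpleGraph.Walk.length_takeUntil_lt_length hx hne
    have h4 : p.bypass.length ≤ p.length := p.length_bypass_le_length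
    exact hmin _ (by omega) ⟨x, p.bypass.takeUntil x hx, rfl, hxv⟩
  obtain ⟨q, hq⟩ := hwv.exists_isPath
  refine ⟨(p.bypass.mapLe (mono_le c b)).append (q.mapLe (mono_le c b')), ?_,
    p.bypass.edges, q.edges, ?_, ?_, ?_⟩
  · rw [SimpleGraph.Walk.isPath_def, SimpleGraph.Walk.support_append, List.nodup_append']
    have hp1 : (p.bypass.mapLe (mono_le c b)).IsPath :=
      (SimpleGraph.Walk.isPath_mapLe (mono_le c b)).2 p.bypass_isPath
    have hq1 : (q.mapLe (mono_le c b')).IsPath :=
      (SimpleGraph.Walk.isPath_mapLe (mono_le c b')).2 hq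
    refine ⟨hp1.support_nodup, hq1.support_nodup.tail, ?_⟩
    intro x hx hx'
    rw [SimpleGraph.Walk.support_mapLe_eq_support] at hx hx'
    have hxq : x ∈ q.support := List.mem_of_mem_tail hx'
    have hxv : (mono c b').Reachable x v := ⟨q.dropUntil x hxq⟩
    have hxw := hfirst x hx hxv
    subst hxw
    have := hq.support_nodup
    rw [← SimpleGraph.Walk.cons_tail_support] at this
    exact (List.nodup_cons.1 this).1 hx'
  · rw [SimpleGraph.Walk.edges_append, SimpleGraph.Walk.edges_mapLe_eq_edges,
      SimpleGraph.Walk.edges_mapLe_eq_edges]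
  · intro e he e' he'
    rw [edges_col _ e he, edges_col _ e' he']
  · intro e he e' he'
    rw [edges_col _ e he, edges_col _ e' he']

lemma flips (k : ℕ) : ∀ u w : Fin n → Bool, hammingDist u w ≤ k →
    ∃ l : List (Fin n), l.length ≤ k ∧ w = l.foldl (fun x i => fl i x) u := by
  induction k with
  | zero =>
    intro u w h
    refine ⟨[], le_rfl, ?_⟩
    have h0 : hammingDist u w = 0 := by omega
    exact (hammingDist_eq_zero.1 h0).symm
  | succ k ih =>
    intro u w h
    by_cases huw : u = w
    · exact ⟨[], by simp, huw.symm⟩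
    obtain ⟨i, hi⟩ := Function.ne_iff.1 huw
    have hlt : hammingDist (fl i u) w < hammingDist u w := by
      unfold hammingDist
      apply Finset.card_lt_card
      rw [Finset.ssubset_iff_of_subset]
      · refine ⟨i, by simpa using hi, ?_⟩
        rw [Finset.mem_filter, not_and, not_not]
        intro _
        rw [fl_at]
        revert hi
        cases u i <;> cases w i <;> simp
      · intro j hj
        rw [Finset.mem_filter] at hj ⊢
        refine ⟨hj.1, ?_⟩
        by_cases hji : j = i
        · subst hji; exact hi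
        · rw [fl_of_ne hji] at hj
          exact hj.2
    obtain ⟨l, hl, hw⟩ := ih (fl i u) w (by omega)
    exact ⟨i :: l, by simp [hl], hw⟩

/-- **Main theorem.** Let `φ` be an automorphism of the `n`-cube that moves some vertex by
distance at most `3`. Then for every 2-colouring of the edges some vertex `u` is joined to `φ u`
by a path with at most one colour change. -/
theorem result :
    ∀ n : ℕ,
      ∀ φ : (SimpleGraph.fromRel fun x y : Fin n → Bool => hammingDist x y = 1) ≃g
            (SimpleGraph.fromRel fun x y : Fin n → Bool => hammingDist x y = 1),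
        (∃ v : Fin n → Bool, hammingDist v (φ v) ≤ 3) →
        ∀ c : Sym2 (Fin n → Bool) → Bool,
          ∃ u : Fin n → Bool,
            ∃ p : (SimpleGraph.fromRel fun x y : Fin n → Bool => hammingDist x y = 1).Walk u (φ u),
              p.IsPath ∧
                ∃ e₁ e₂ : List (Sym2 (Fin n → Bool)),
                  p.edges = e₁ ++ e₂ ∧
                    (∀ e ∈ e₁, ∀ e' ∈ e₁, c e = c e') ∧
                    (∀ e ∈ e₂, ∀ e' ∈ e₂, c e = c e') := by
  intro n φ hv c
  obtain ⟨v, hv⟩ := hv
  by_contra hcon
  have hbad : Bad c φ := by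
    intro v w b b' h1 h2
    exact hcon ⟨v, mono_walk_path h1 h2⟩
  obtain ⟨π, hπ⟩ := exists_dir φ
  obtain ⟨l, hl, hw⟩ := flips 3 v (φ v) hv
  match l, hl, hw with
  | [], _, hw =>
    have hw' : φ v = v := hw
    exact hbad v v true true (SimpleGraph.Reachable.refl _)
      (by rw [hw'])
  | [i], _, hw =>
    have hw' : φ v = fl i v := hw
    exact hbad v v true (col c v i) (SimpleGraph.Reachable.refl _) (by rw [hw']; exact rch rfl)
  | [i, j], _, hw =>
    have hw' : φ v = fl j (fl i v) := hw
    exact hbad v (fl i v) (col c v i) (col c (fl i v) j) (rch rfl)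
      (by rw [hw']; exact rch rfl)
  | [i, j, k], _, hw =>
    have hw' : φ v = fl k (fl j (fl i v)) := hw
    exact no_bad (φ := φ) hπ hbad (v := v) (a := k) (b := j) (d := i) hw'
  | _ :: _ :: _ :: _ :: _, hl, _ =>
    simp only [List.length_cons] at hl
    omega

end Pool.Agent.Results.MP_a0ec0b_co.DistanceThree
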