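import Mathlib
import Pool.Agent.H292R3.FS.Sys2

set_option autoImplicit false

/-!
# One colour change between a vertex and its image under a hypercube automorphism

Two-colourings of the cube whose properly coloured 4-cycles are harmless.
-/

namespace Pool.Agent.Results.MP_a0ec0b_co.TreeLike

open Pool.Agent.H292R3.FS

/-- The `n`-cube, written as in the frozen statements. -/
abbrev Q (n : ℕ) : SimpleGraph (Fin n → Bool) :=
  SimpleGraph.fromRel fun x y : Fin n → Bool => hammingDist x y = 1

variable {n : ℕ}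

/-- The graph formed by the edges of colour `b`. -/
def mono (c : Sym2 (Fin n → Bool) → Bool) (b : Bool) : SimpleGraph (Fin n → Bool) where
  Adj x y := (Q n).Adj x y ∧ c s(x, y) = b
  symm := ⟨fun x y h => ⟨h.1.symm, by rw [Sym2.eq_swap]; exact h.2⟩⟩
  loopless := ⟨fun x h => h.1.ne rfl⟩

/-- `v₁ v₂ v₃ v₄` is a properly coloured 4-cycle. -/
def ProperCycle (c : Sym2 (Fin n → Bool) → Bool) (v₁ v₂ v₃ v₄ : Fin n → Bool) : Prop :=
  (Q n).Adj v₁ v₂ ∧ (Q n).Adj v₂ v₃ ∧ (Q n).Adj v₃ v₄ ∧ (Q n).Adj v₄ v₁ ∧ v₁ ≠ v₃ ∧ v₂ ≠ v₄ ∧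
    c s(v₁, v₂) = c s(v₃, v₄) ∧ c s(v₂, v₃) = c s(v₄, v₁) ∧ c s(v₁, v₂) ≠ c s(v₂, v₃)

/-- `u` and `v` are joined by a monochromatic path. -/
def MonoJoined (c : Sym2 (Fin n → Bool) → Bool) (u v : Fin n → Bool) : Prop :=
  ∃ p : (Q n).Walk u v, p.IsPath ∧ ∀ e ∈ p.edges, ∀ e' ∈ p.edges, c e = c e'

/-- `u` and `v` are joined by a path with at most one colour change
(written as in the frozen statements). -/
def OneChangeJoined (c : Sym2 (Fin n → Bool) → Bool) (u v : Fin n → Bool) : Prop :=
  ∃ p : (Q n).Walk u v, p.IsPath ∧ ∃ e₁ e₂ : List (Sym2 (Fin n → Bool)),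
    p.edges = e₁ ++ e₂ ∧ (∀ e ∈ e₁, ∀ e' ∈ e₁, c e = c e') ∧ (∀ e ∈ e₂, ∀ e' ∈ e₂, c e = c e')

/-- The union of the components of the other colour that meet the component of colour `b`
of `v`. -/
def nbr (c : Sym2 (Fin n → Bool) → Bool) (b : Bool) (v : Fin n → Bool) : Set (Fin n → Bool) :=
  {z | ∃ w, (mono c b).Reachable v w ∧ (mono c (!b)).Reachable w z}

lemma mono_le (c : Sym2 (Fin n → Bool) → Bool) (b : Bool) : mono c b ≤ Q n := fun _ _ h => h.1

lemma edges_col {c : Sym2 (Fin n → Bool) → Bool} {b : Bool} {u v : Fin n → Bool}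
    (p : (mono c b).Walk u v) : ∀ e ∈ p.edges, c e = b := by
  intro e he
  have h := p.edges_subset_edgeSet he
  revert h
  refine Sym2.ind (fun x y => ?_) e
  intro h
  exact h.2

lemma monoJoined_of_reach {c : Sym2 (Fin n → Bool) → Bool} {b : Bool} {u v : Fin n → Bool}
    (h : (mono c b).Reachable u v) : MonoJoined c u v := by
  obtain ⟨p, hp⟩ := h.exists_isPath
  refine ⟨p.mapLe (mono_le c b), (SimpleGraph.Walk.isPath_mapLe (mono_le c b)).2 hp, ?_⟩
  intro e he e' he'
  rw [SimpleGraph.Walk.edges_mapLe_eq_edges] at he he'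
  rw [edges_col p e he, edges_col p e' he']

lemma reach_of_monoJoined {c : Sym2 (Fin n → Bool) → Bool} {u v : Fin n → Bool}
    (h : MonoJoined c u v) : ∃ b, (mono c b).Reachable u v := by
  obtain ⟨p, _, hp⟩ := h
  cases p with
  | nil => exact ⟨true, SimpleGraph.Reachable.refl _⟩
  | @cons _ w _ hadj q =>
    refine ⟨c s(u, w), ⟨(SimpleGraph.Walk.cons hadj q).transfer (mono c (c s(u, w))) ?_⟩⟩
    intro e he
    have h1 := hp e he s(u, w) (by simp)
    have h2 := (SimpleGraph.Walk.cons hadj q).edges_subset_edgeSet he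
    revert h1 h2
    refine Sym2.ind (fun x y => ?_) e
    intro h1 h2
    exact ⟨h2, h1⟩

lemma oneChange_of_reach {c : Sym2 (Fin n → Bool) → Bool} {b : Bool} {u w v : Fin n → Bool}
    (h1 : (mono c b).Reachable u w) (h2 : (mono c (!b)).Reachable w v) :
    OneChangeJoined c u v := by
  classical
  have hex : ∃ k : ℕ, ∃ w, ∃ p : (mono c b).Walk u w, p.length = k ∧
      (mono c (!b)).Reachable w v := by
    obtain ⟨p⟩ := h1
    exact ⟨p.length, w, p, rfl, h2⟩
  obtain ⟨w, p, hpk, hwv⟩ := Nat.find_spec hex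
  have hmin := fun m (hm : m < Nat.find hex) => Nat.find_min hex hm
  have hfirst : ∀ x ∈ p.bypass.support, (mono c (!b)).Reachable x v → x = w := by
    intro x hx hxv
    by_contra hne
    have h3 : (p.bypass.takeUntil x hx).length < p.bypass.length :=
      SimpleGraph.Walk.length_takeUntil_lt_length hx hne
    have h4 : p.bypass.length ≤ p.length := p.length_bypass_le_length
    exact hmin _ (by omega) ⟨x, p.bypass.takeUntil x hx, rfl, hxv⟩
  obtain ⟨q, hq⟩ := hwv.exists_isPath
  refine ⟨(p.bypass.mapLe (mono_le c b)).append (q.mapLe (mono_le c (!b))), ?_,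
    p.bypass.edges, q.edges, ?_, ?_, ?_⟩
  · rw [SimpleGraph.Walk.isPath_def, SimpleGraph.Walk.support_append, List.nodup_append']
    have hp1 : (p.bypass.mapLe (mono_le c b)).IsPath :=
      (SimpleGraph.Walk.isPath_mapLe (mono_le c b)).2 p.bypass_isPath
    have hq1 : (q.mapLe (mono_le c (!b))).IsPath :=
      (SimpleGraph.Walk.isPath_mapLe (mono_le c (!b))).2 hq
    refine ⟨hp1.support_nodup, hq1.support_nodup.tail, ?_⟩
    intro x hx hx'
    rw [SimpleGraph.Walk.support_mapLe_eq_support] at hx hx'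
    have hxq : x ∈ q.support := List.mem_of_mem_tail hx'
    have hxv : (mono c (!b)).Reachable x v := ⟨q.dropUntil x hxq⟩
    have hxw := hfirst x hx hxv
    subst hxw
    have := hq.support_nodup
    rw [← SimpleGraph.Walk.cons_tail_support] at this
    exact (List.nodup_cons.1 this).1 hx'
  · rw [SimpleGraph.Walk.edges_append, SimpleGraph.Walk.edges_mapLe_eq_edges,
      SimpleGraph.Walk.edges_mapLe_eq_edges]
  · intro e he e' he'
    rw [edges_col _ e he, edges_col _ e' he']
  · intro e he e' he'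
    rw [edges_col _ e he, edges_col _ e' he']

lemma proper_of_fl {c : Sym2 (Fin n → Bool) → Bool} {v : Fin n → Bool} {i j : Fin n}
    (hij : i ≠ j) (h1 : c s(v, fl i v) = c s(fl j v, fl i (fl j v)))
    (h2 : c s(fl i v, fl i (fl j v)) = c s(v, fl j v))
    (h3 : c s(v, fl i v) ≠ c s(v, fl j v)) :
    ProperCycle c v (fl i v) (fl i (fl j v)) (fl j v) := by
  have a12 : (Q n).Adj v (fl i v) := adj_fl v i
  have a14 : (Q n).Adj v (fl j v) := adj_fl v j
  have a23 : (Q n).Adj (fl i v) (fl i (fl j v)) := by rw [fl_comm]; exact adj_fl _ j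
  have a43 : (Q n).Adj (fl j v) (fl i (fl j v)) := adj_fl _ i
  refine ⟨a12, a23, a43.symm, a14.symm, ?_, ?_, ?_, ?_, ?_⟩
  · intro h
    have := congrFun h i
    simp [fl, hij] at this
  · intro h
    have := congrFun h i
    simp [fl, hij] at this
  · rw [h1, Sym2.eq_swap]
  · rw [h2, Sym2.eq_swap]
  · rw [h2]; exact h3

lemma reach_edge {c : Sym2 (Fin n → Bool) → Bool} {b : Bool} {x y : Fin n → Bool}
    (h : (Q n).Adj x y) (hb : c s(x, y) = b) : (mono c b).Reachable x y :=
  SimpleGraph.Adj.reachable (G := mono c b) ⟨h, hb⟩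

lemma ne_iff_not {b b' : Bool} (h : b' ≠ b) : b' = !b := by
  revert h; cases b <;> cases b' <;> simp

/-- the system of the monochromatic components -/
def sys₁ (c : Sym2 (Fin n → Bool) → Bool)
    (hc : ∀ v₁ v₂ v₃ v₄, ProperCycle c v₁ v₂ v₃ v₄ → MonoJoined c v₁ v₃) : FX.Sys n where
  E b x y := (mono c b).Reachable x y
  refl b x := SimpleGraph.Reachable.refl x
  symm b x y h := h.symm
  trans b x y z h h' := h.trans h'
  cover b x y h hn := by
    refine reach_edge h (ne_iff_not fun hb => hn (reach_edge h hb))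
  conn b x y h := by
    rw [SimpleGraph.reachable_iff_reflTransGen] at h
    exact FX.rtg_mono h fun a d had => ⟨had.1, SimpleGraph.Adj.reachable had⟩
  sq b v i j hij h12 h43 h23 h14 := by
    have a12 : (Q n).Adj v (fl i v) := adj_fl v i
    have a14 : (Q n).Adj v (fl j v) := adj_fl v j
    have a23 : (Q n).Adj (fl i v) (fl i (fl j v)) := by rw [fl_comm]; exact adj_fl _ j
    have a43 : (Q n).Adj (fl j v) (fl i (fl j v)) := adj_fl _ i
    have c23 : c s(fl i v, fl i (fl j v)) = !b := ne_iff_not fun h => h23 (reach_edge a23 h)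
    have c14 : c s(v, fl j v) = !b := ne_iff_not fun h => h14 (reach_edge a14 h)
    by_cases c12 : c s(v, fl i v) = b
    swap
    · exact ⟨!b, (reach_edge a12 (ne_iff_not c12)).trans (reach_edge a23 c23)⟩
    by_cases c43 : c s(fl j v, fl i (fl j v)) = b
    swap
    · exact ⟨!b, (reach_edge a14 c14).trans (reach_edge a43 (ne_iff_not c43))⟩
    refine reach_of_monoJoined (hc _ _ _ _ (proper_of_fl hij (by rw [c12, c43])
      (by rw [c23, c14]) ?_))
    rw [c12, c14]
    cases b <;> simp

/-- adjacent vertices with the same neighbourhood -/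
def lnk (c : Sym2 (Fin n → Bool) → Bool) (b : Bool) (x y : Fin n → Bool) : Prop :=
  (Q n).Adj x y ∧ nbr c b x = nbr c b y

lemma nbr_eq {c : Sym2 (Fin n → Bool) → Bool} {b : Bool} {x y : Fin n → Bool}
    (h : (mono c b).Reachable x y) : nbr c b x = nbr c b y := by
  ext z
  constructor
  · rintro ⟨w, h1, h2⟩
    exact ⟨w, h.symm.trans h1, h2⟩
  · rintro ⟨w, h1, h2⟩
    exact ⟨w, h.trans h1, h2⟩

lemma lnk_nbr {c : Sym2 (Fin n → Bool) → Bool} {b : Bool} {x y : Fin n → Bool}
    (h : Relation.ReflTransGen (lnk c b) x y) : nbr c b x = nbr c b y := by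
  induction h with
  | refl => rfl
  | tail _ h2 ih => exact ih.trans h2.2

lemma lnk_symm {c : Sym2 (Fin n → Bool) → Bool} {b : Bool} {x y : Fin n → Bool}
    (h : Relation.ReflTransGen (lnk c b) x y) : Relation.ReflTransGen (lnk c b) y x := by
  induction h with
  | refl => exact Relation.ReflTransGen.refl
  | tail _ h2 ih => exact Relation.ReflTransGen.head ⟨h2.1.symm, h2.2.symm⟩ ih

/-- the system of the level sets of the neighbourhoods -/
def sys₂ (c : Sym2 (Fin n → Bool) → Bool)
    (hc : ∀ v₁ v₂ v₃ v₄, ProperCycle c v₁ v₂ v₃ v₄ → ∃ b, nbr c b v₁ = nbr c b v₃) :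
    FX.Sys n where
  E b x y := Relation.ReflTransGen (lnk c b) x y
  refl b x := Relation.ReflTransGen.refl
  symm b x y h := lnk_symm h
  trans b x y z h h' := h.trans h'
  cover b x y h hn := by
    refine Relation.ReflTransGen.single ⟨h, nbr_eq (reach_edge h (ne_iff_not fun hb => ?_))⟩
    exact hn (Relation.ReflTransGen.single ⟨h, nbr_eq (reach_edge h hb)⟩)
  conn b x y h := FX.rtg_mono h fun a d had => ⟨had.1, Relation.ReflTransGen.single had⟩
  sq b v i j hij h12 h43 h23 h14 := by
    have a12 : (Q n).Adj v (fl i v) := adj_fl v i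
    have a14 : (Q n).Adj v (fl j v) := adj_fl v j
    have a23 : (Q n).Adj (fl i v) (fl i (fl j v)) := by rw [fl_comm]; exact adj_fl _ j
    have a43 : (Q n).Adj (fl j v) (fl i (fl j v)) := adj_fl _ i
    have key : ∀ {b' x y}, (Q n).Adj x y → c s(x, y) = b' →
        Relation.ReflTransGen (lnk c b') x y := fun {b' x y} h hb =>
      Relation.ReflTransGen.single ⟨h, nbr_eq (reach_edge h hb)⟩
    have c23 : c s(fl i v, fl i (fl j v)) = !b := ne_iff_not fun h => h23 (key a23 h)
    have c14 : c s(v, fl j v) = !b := ne_iff_not fun h => h14 (key a14 h)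
    by_cases c12 : c s(v, fl i v) = b
    swap
    · exact ⟨!b, (key a12 (ne_iff_not c12)).trans (key a23 c23)⟩
    by_cases c43 : c s(fl j v, fl i (fl j v)) = b
    swap
    · exact ⟨!b, (key a14 c14).trans (key a43 (ne_iff_not c43))⟩
    obtain ⟨b', hb'⟩ := hc _ _ _ _ (proper_of_fl hij (by rw [c12, c43])
      (by rw [c23, c14]) (by rw [c12, c14]; cases b <;> simp))
    by_cases h : b' = b
    · subst h
      exfalso
      apply h23
      refine Relation.ReflTransGen.single ⟨a23, ?_⟩
      rw [← hb']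
      exact (nbr_eq (reach_edge a12 c12)).symm
    · have hb2 := ne_iff_not h
      subst hb2
      refine ⟨!b, Relation.ReflTransGen.tail (b := fl i v) (Relation.ReflTransGen.single
        ⟨a12, ?_⟩) ⟨a23, nbr_eq (reach_edge a23 c23)⟩⟩
      rw [hb']
      exact (nbr_eq (reach_edge a23 c23)).symm

lemma nbr_sub {c : Sym2 (Fin n → Bool) → Bool} {b : Bool}
    (h2 : ∀ v x y z, (mono c b).Reachable v x → (mono c b).Reachable v y →
      (mono c b).Reachable v z → (mono c (!b)).Reachable x y ∨ (mono c (!b)).Reachable y z ∨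
      (mono c (!b)).Reachable x z)
    {p q r s : Fin n → Bool} (hpq : (mono c b).Reachable p q) (hrs : (mono c b).Reachable r s)
    (hqr : (mono c (!b)).Reachable q r) (hps : (mono c (!b)).Reachable p s)
    (hn : ¬ (mono c (!b)).Reachable p q) : nbr c b p ⊆ nbr c b r := by
  rintro z ⟨w, hw1, hw2⟩
  rcases h2 p p q w (SimpleGraph.Reachable.refl _) hpq hw1 with h | h | h
  · exact absurd h hn
  · exact ⟨r, SimpleGraph.Reachable.refl _, (hqr.symm.trans h).trans hw2⟩
  · exact ⟨s, hrs, (hps.symm.trans h).trans hw2⟩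

lemma two_classes {c : Sym2 (Fin n → Bool) → Bool} {b : Bool}
    (h2 : ∀ v x y z, (mono c b).Reachable v x → (mono c b).Reachable v y →
      (mono c b).Reachable v z → (mono c (!b)).Reachable x y ∨ (mono c (!b)).Reachable y z ∨
      (mono c (!b)).Reachable x z)
    {p q r s : Fin n → Bool} (hpq : (mono c b).Reachable p q) (hrs : (mono c b).Reachable r s)
    (hqr : (mono c (!b)).Reachable q r) (hps : (mono c (!b)).Reachable p s) :
    ∃ b', nbr c b' p = nbr c b' r := by
  by_cases hn : (mono c (!b)).Reachable p q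
  · exact ⟨!b, nbr_eq (hn.trans hqr)⟩
  · refine ⟨b, Set.Subset.antisymm (nbr_sub h2 hpq hrs hqr hps hn)
      (nbr_sub h2 hrs hpq hps.symm hqr.symm fun h => hn ?_)⟩
    exact (hps.trans h.symm).trans hqr.symm

/-- **Main theorem.** Let `c` be a 2-colouring of the edges of the `n`-cube and `φ` a graph
endomorphism of the cube (for example an automorphism).

1. If every properly coloured 4-cycle has two opposite vertices joined by a monochromatic path,
then some vertex `u` is joined to `φ u` by a monochromatic path.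

2. If for every properly coloured 4-cycle there is a colour `b` such that the components of
colour `b` of two opposite vertices meet the same components of the other colour, then some
vertex `u` is joined to `φ u` by a path with at most one colour change.

3. If for one colour `b` every component of colour `b` meets at most two components of the other
colour, then some vertex `u` is joined to `φ u` by a path with at most one colour change. -/
theorem result (n : ℕ) (φ : Q n →g Q n) (c : Sym2 (Fin n → Bool) → Bool) :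
    ((∀ v₁ v₂ v₃ v₄, ProperCycle c v₁ v₂ v₃ v₄ → MonoJoined c v₁ v₃) →
      ∃ u, MonoJoined c u (φ u)) ∧
    ((∀ v₁ v₂ v₃ v₄, ProperCycle c v₁ v₂ v₃ v₄ → ∃ b, nbr c b v₁ = nbr c b v₃) →
      ∃ u, OneChangeJoined c u (φ u)) ∧
    (∀ b, (∀ v x y z, (mono c b).Reachable v x → (mono c b).Reachable v y →
        (mono c b).Reachable v z → (mono c (!b)).Reachable x y ∨ (mono c (!b)).Reachable y z ∨
          (mono c (!b)).Reachable x z) →
      ∃ u, OneChangeJoined c u (φ u)) := by
  have part2 : (∀ v₁ v₂ v₃ v₄, ProperCycle c v₁ v₂ v₃ v₄ → ∃ b, nbr c b v₁ = nbr c b v₃) →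
      ∃ u, OneChangeJoined c u (φ u) := by
    intro hc
    obtain ⟨u, b, h⟩ := FX.main (sys₂ c hc) φ (fun x y h => φ.map_adj h)
    have h1 : φ u ∈ nbr c b (φ u) :=
      ⟨φ u, SimpleGraph.Reachable.refl _, SimpleGraph.Reachable.refl _⟩
    rw [← lnk_nbr h] at h1
    obtain ⟨w, hw1, hw2⟩ := h1
    exact ⟨u, oneChange_of_reach hw1 hw2⟩
  refine ⟨?_, part2, ?_⟩
  · intro hc
    obtain ⟨u, b, h⟩ := FX.main (sys₁ c hc) φ (fun x y h => φ.map_adj h)
    exact ⟨u, monoJoined_of_reach h⟩
  · intro b h2
    refine part2 fun v₁ v₂ v₃ v₄ hP => ?_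
    obtain ⟨a12, a23, a34, a41, -, -, e1, e2, e3⟩ := hP
    by_cases hb : c s(v₁, v₂) = b
    · have hb' : c s(v₂, v₃) = !b := ne_iff_not fun h => e3 (by rw [hb, h])
      exact two_classes h2 (reach_edge a12 hb) (reach_edge a34 (by rw [← e1, hb]))
        (reach_edge a23 hb') (reach_edge a41 (by rw [← e2, hb'])).symm
    · have hb' : c s(v₂, v₃) = b := by
        by_contra h
        exact e3 (by rw [ne_iff_not hb, ne_iff_not h])
      have hb1 := ne_iff_not hb
      exact two_classes h2 (reach_edge a41 (by rw [← e2, hb'])).symm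
        (reach_edge a23 hb').symm (reach_edge a34 (by rw [← e1, hb1])).symm
        (reach_edge a12 hb1)

end Pool.Agent.Results.MP_a0ec0b_co.TreeLike
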